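import Pool.Agent.Helper64.DT.Stmts

/-!
# MP_866009_co, diamond-free circle graphs: module GE2
-/

set_option autoImplicit false

namespace Pool.Agent.Helper64.DT

open Pool.Agent.Helper64.CT
open Pool.Agent.Helper64.HG (Ovl Model Circ IC HellyCircle ChordModel)

/-- two intervals which do not overlap are nested or disjoint -/
theorem ge2_pair {V : Type} {G : SimpleGraph V} {S : Set V} {l r : V → ℝ} (h : MOn G S l r)
    {x y : V} (hx : x ∈ S) (hy : y ∈ S) (hxy : x ∈ Far G y) :
    Ins l r x y ∨ Ins l r y x ∨ r x < l y ∨ r y < l x := by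
  have h1 : ¬ Ovl l r y x := fun e => hxy.2 ((h.adj y hy x hx).2 e)
  have h2 : l y ≠ l x := fun e => hxy.1 (h.injl y hy x hx e).symm
  have h3 : r y ≠ r x := fun e => hxy.1 (h.injr y hy x hx e).symm
  have h4 := h.ne x hx y hy
  have h5 := h.ne y hy x hx
  unfold Ovl at h1
  unfold Ins
  rcases lt_or_gt_of_ne h2 with h2 | h2 <;> rcases lt_or_gt_of_ne h3 with h3 | h3 <;>
    rcases lt_or_gt_of_ne h4 with h4 | h4 <;> rcases lt_or_gt_of_ne h5 with h5 | h5 <;>
    simp_all

theorem st_GE2 : ST_GE2 := by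
  intro V G S l r h a ha b hb c hc hab hac hbc
  have la := h.lt a ha
  have lb := h.lt b hb
  have lc := h.lt c hc
  rintro ⟨h1, h2⟩
  rcases ge2_pair h ha hb hab with h3 | h3 | h3 | h3 <;>
    rcases ge2_pair h ha hc hac with h4 | h4 | h4 | h4 <;>
    rcases ge2_pair h hb hc hbc with h5 | h5 | h5 | h5 <;>
    simp only [Ins] at h1 h2 h3 h4 h5 <;> grind

end Pool.Agent.Helper64.DT
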